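import Pool.Agent.W38.TO.Bridge

/-! The number of cyclic triangles of a tournament. -/

set_option autoImplicit false
open Finset
open scoped Classical

namespace Pool.Agent.U378.K4

/-- the skew-symmetric matrix of a tournament -/
noncomputable def sg {n : ℕ} (D : Fin n → Fin n → Prop) (x y : Fin n) : ℤ :=
  if x = y then 0 else if D x y then 1 else -1

theorem sg_skew {n : ℕ} {D : Fin n → Fin n → Prop} (hD : ∀ x y, x ≠ y → (D x y ↔ ¬ D y x))
    (x y : Fin n) : sg D y x = -sg D x y := by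
  unfold sg
  by_cases h : x = y
  · rw [if_pos h, if_pos h.symm]
    rfl
  · rw [if_neg h, if_neg (Ne.symm h)]
    by_cases h1 : D x y
    · rw [if_pos h1, if_neg ((hD x y h).1 h1)]
    · rw [if_neg h1, if_pos ((hD y x (Ne.symm h)).2 h1)]
      rfl

theorem sg_cases {n : ℕ} (D : Fin n → Fin n → Prop) {x y : Fin n} (h : x ≠ y) :
    (D x y ∧ sg D x y = 1) ∨ (¬ D x y ∧ sg D x y = -1) := by
  unfold sg
  rw [if_neg h]
  by_cases h1 : D x y
  · exact Or.inl ⟨h1, if_pos h1⟩
  · exact Or.inr ⟨h1, if_neg h1⟩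

theorem sg_self {n : ℕ} (D : Fin n → Fin n → Prop) (x : Fin n) : sg D x x = 0 := by
  unfold sg
  rw [if_pos rfl]

theorem cyc_bound {n : ℕ} {D : Fin n → Fin n → Prop} (hD : ∀ x y, x ≠ y → (D x y ↔ ¬ D y x))
    {H : Finset (Finset (Fin n))} (hH : ∀ e ∈ H, e.card = 3)
    (h : ∀ x y z : Fin n, x ≠ y → x ≠ z → y ≠ z → ({x, y, z} : Finset (Fin n)) ∈ H →
      (D x y ↔ D y z) ∧ (D x y ↔ D z x)) : 24 * H.card + n ≤ n ^ 3 := by
  have h1 := Pool.Agent.W38.TO.six_le hH
  have h2 : (6 : ℤ) * H.card ≤ ∑ a : Fin n, ∑ b : Fin n, ∑ c : Fin n,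
      (if ({a, b, c} : Finset (Fin n)) ∈ H then (1 : ℤ) else 0) := by
    have h3 : ((6 * H.card : ℕ) : ℤ) ≤ ((∑ a : Fin n, ∑ b : Fin n, ∑ c : Fin n,
      (if ({a, b, c} : Finset (Fin n)) ∈ H then 1 else 0) : ℕ) : ℤ) := by exact_mod_cast h1
    push_cast at h3
    exact h3
  have h4 : ∀ a b c : Fin n, 4 * (if ({a, b, c} : Finset (Fin n)) ∈ H then (1 : ℤ) else 0) +
      (if a = b then (if b = c then (1 : ℤ) else 0) else 0) ≤
      1 + sg D a b * sg D b c + sg D b c * sg D c a + sg D c a * sg D a b := by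
    intro a b c
    by_cases hab : a = b
    · subst hab
      have : ({a, a, c} : Finset (Fin n)) ∉ H := fun hm => by
        have h5 := hH _ hm
        rw [insert_eq_of_mem (mem_insert_self _ _)] at h5
        exact absurd (card_le_two (a := a) (b := c)) (by omega)
      rw [if_neg this, if_pos rfl, sg_self]
      by_cases hac : a = c
      · subst hac
        rw [if_pos rfl, sg_self]
        norm_num
      · rw [if_neg hac, sg_skew hD a c]
        rcases sg_cases D hac with ⟨-, h6⟩ | ⟨-, h6⟩ <;> rw [h6] <;> norm_num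
    · rw [if_neg hab]
      by_cases hm : ({a, b, c} : Finset (Fin n)) ∈ H
      · obtain ⟨g1, g2, g3⟩ := Pool.Agent.W38.TO.card_of_triple (hH _ hm)
        obtain ⟨e1, e2⟩ := h a b c g1 g2 g3 hm
        rw [if_pos hm]
        rcases sg_cases D g1 with ⟨k1, h6⟩ | ⟨k1, h6⟩ <;>
          rcases sg_cases D g3 with ⟨k2, h7⟩ | ⟨k2, h7⟩ <;>
          rcases sg_cases D (Ne.symm g2) with ⟨k3, h8⟩ | ⟨k3, h8⟩ <;> rw [h6, h7, h8] <;>
          first | exact absurd (e1.1 k1) k2 | exact absurd (e2.1 k1) k3 |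
            exact absurd (e1.2 k2) k1 | exact absurd (e2.2 k3) k1 | norm_num
      · rw [if_neg hm]
        by_cases hbc : b = c
        · subst hbc
          rw [sg_self, sg_skew hD a b]
          rcases sg_cases D hab with ⟨-, h6⟩ | ⟨-, h6⟩ <;> rw [h6] <;> norm_num
        · by_cases hac : a = c
          · subst hac
            rw [sg_self, sg_skew hD a b]
            rcases sg_cases D hab with ⟨-, h6⟩ | ⟨-, h6⟩ <;> rw [h6] <;> norm_num
          · rcases sg_cases D hab with ⟨-, h6⟩ | ⟨-, h6⟩ <;>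
              rcases sg_cases D hbc with ⟨-, h7⟩ | ⟨-, h7⟩ <;>
              rcases sg_cases D (Ne.symm hac) with ⟨-, h8⟩ | ⟨-, h8⟩ <;>
              rw [h6, h7, h8] <;> norm_num
  have h5 : ∑ a : Fin n, ∑ b : Fin n, ∑ c : Fin n,
      (4 * (if ({a, b, c} : Finset (Fin n)) ∈ H then (1 : ℤ) else 0) +
      (if a = b then (if b = c then (1 : ℤ) else 0) else 0)) ≤
      ∑ a : Fin n, ∑ b : Fin n, ∑ c : Fin n,
      (1 + sg D a b * sg D b c + sg D b c * sg D c a + sg D c a * sg D a b) :=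
    sum_le_sum fun a _ => sum_le_sum fun b _ => sum_le_sum fun c _ => h4 a b c
  set Q : ℤ := ∑ b : Fin n, (∑ c : Fin n, sg D b c) ^ 2 with hQ
  have hq : 0 ≤ Q := sum_nonneg fun b _ => sq_nonneg _
  have t1 : ∑ a : Fin n, ∑ b : Fin n, ∑ c : Fin n, sg D a b * sg D b c = -Q := by
    rw [sum_comm, hQ, ← sum_neg_distrib]
    refine sum_congr rfl fun b _ => ?_
    have e1 : ∑ a : Fin n, ∑ c : Fin n, sg D a b * sg D b c
        = (∑ a : Fin n, sg D a b) * ∑ c : Fin n, sg D b c := by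
      rw [sum_mul_sum]
    have e2 : ∑ a : Fin n, sg D a b = -∑ c : Fin n, sg D b c := by
      rw [← sum_neg_distrib]
      exact sum_congr rfl fun a _ => sg_skew hD b a
    rw [e1, e2]
    ring
  have t2 : ∑ a : Fin n, ∑ b : Fin n, ∑ c : Fin n, sg D b c * sg D c a = -Q := by
    rw [← t1, sum_comm]
    refine sum_congr rfl fun b _ => ?_
    rw [sum_comm]
  have t3 : ∑ a : Fin n, ∑ b : Fin n, ∑ c : Fin n, sg D c a * sg D a b = -Q := by
    rw [← t1]
    have : ∀ a : Fin n, ∑ b : Fin n, ∑ c : Fin n, sg D c a * sg D a b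
        = ∑ c : Fin n, ∑ b : Fin n, sg D c a * sg D a b := fun a => sum_comm
    rw [sum_congr rfl fun a _ => this a, sum_comm]
  have t4 : ∑ a : Fin n, ∑ b : Fin n, ∑ c : Fin n,
      (1 + sg D a b * sg D b c + sg D b c * sg D c a + sg D c a * sg D a b) = n ^ 3 - 3 * Q := by
    simp only [sum_add_distrib]
    rw [t1, t2, t3]
    simp only [sum_const, card_univ, Fintype.card_fin, nsmul_eq_mul]
    ring
  have t5 : ∑ a : Fin n, ∑ b : Fin n, ∑ c : Fin n,
      (4 * (if ({a, b, c} : Finset (Fin n)) ∈ H then (1 : ℤ) else 0) +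
      (if a = b then (if b = c then (1 : ℤ) else 0) else 0)) =
      4 * (∑ a : Fin n, ∑ b : Fin n, ∑ c : Fin n,
      (if ({a, b, c} : Finset (Fin n)) ∈ H then (1 : ℤ) else 0)) + n := by
    simp only [sum_add_distrib, mul_sum]
    congr 1
    have : ∀ a b : Fin n, ∑ c : Fin n, (if a = b then (if b = c then (1 : ℤ) else 0) else 0)
        = if a = b then 1 else 0 := by
      intro a b
      by_cases hab : a = b
      · simp [hab]
      · simp [hab]
    simp only [this]
    simp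
  rw [t4, t5] at h5
  have h6 : (24 : ℤ) * H.card + n ≤ n ^ 3 := by linarith
  exact_mod_cast h6

end Pool.Agent.U378.K4
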