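import Pool.Agent.U378.TM.KM.Cert
import Pool.Agent.U378.TM.Core
import Pool.Agent.U378.TF.Core
import Pool.Agent.U378.K4.Cyc

/-! Bounds for the rules without four points spanning three edges. -/

set_option autoImplicit false
set_option maxRecDepth 100000

namespace Pool.Agent.U378.TF

theorem g1_rv : ∀ x < 4, x / 2 < 2 ∧ rv x / 2 ≠ x / 2 := by decide +kernel
theorem g2_rv : ∀ x < 4, (x + 1) / 2 % 2 < 2 ∧ (rv x + 1) / 2 % 2 ≠ (x + 1) / 2 % 2 := by
  decide +kernel
theorem cyc1 : ∀ c < 64, bit 2496 (tp c) = 1 →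
    dg0 c / 2 = dg2 c / 2 ∧ dg0 c / 2 ≠ dg1 c / 2 := by decide +kernel
theorem cyc2 : ∀ c < 64, bit 2148 (tp c) = 1 →
    (dg0 c + 1) / 2 % 2 = (dg2 c + 1) / 2 % 2 ∧
      (dg0 c + 1) / 2 % 2 ≠ (dg1 c + 1) / 2 % 2 := by decide +kernel

end Pool.Agent.U378.TF

open Finset
open scoped Classical

namespace Pool.Agent.U378.TM

theorem cert_cntD {TY PA AC AF nt X κ a : ℕ} {T O : ℕ → ℕ} (h : Cert TY PA AC AF nt T O X)
    (L : List ℕ) (hO : ∀ t, O t = 8388608 + κ * (if t ∈ L then 1 else 0))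
    (hX : X = 83886080 + a) (hκ : 0 < κ) (D : ℝ) (ha : (a : ℝ) ≤ 10 * κ * D) (V : Type) [Fintype V]
    (rel : V → V → ℕ) (hr : Rel4 rel) :
    cnt (fun c => tyS TY c ∈ L) rel ≤ D * (Fintype.card V : ℝ) ^ 3 := by
  refine blow (C := 1677721600 / (10 * (κ : ℝ))) (D := D) ?_ V rel hr
  intro V _ hn rel hr
  have h1 := flag5 h hn hr
  set n : ℝ := (Fintype.card V : ℝ) with hnd
  have hn0 : 0 < n := by rw [hnd]; exact_mod_cast hn
  have hκr : (0 : ℝ) < κ := by exact_mod_cast hκ
  set S : ℝ := ∑ a : V, ∑ b : V, ∑ c : V, (if tyS TY (c3 rel a b c) ∈ L then (1 : ℝ) else 0)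
    with hS
  have e : ∑ a : V, ∑ b : V, ∑ c : V, (O (tyS TY (c3 rel a b c)) : ℝ)
      = 8388608 * n ^ 3 + κ * S := by
    rw [hS]
    simp only [hO, mul_sum]
    have e1 : (8388608 : ℝ) * n ^ 3 = ∑ _a : V, ∑ _b : V, ∑ _c : V, (8388608 : ℝ) := by
      simp only [sum_const, card_univ, nsmul_eq_mul]
      rw [hnd]
      ring
    rw [e1, ← sum_add_distrib]
    refine sum_congr rfl fun a _ => ?_
    rw [← sum_add_distrib]
    refine sum_congr rfl fun b _ => ?_
    rw [← sum_add_distrib]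
    refine sum_congr rfl fun c _ => ?_
    push_cast
    ring
  rw [e, hX] at h1
  push_cast at h1
  have h2 : (10 * κ * n ^ 2) * S ≤ (10 * κ * n ^ 2) *
      (D * n ^ 3 + 1677721600 / (10 * (κ : ℝ)) * n ^ 2) := by
    have e2 : (10 * κ * n ^ 2) * (D * n ^ 3 + 1677721600 / (10 * (κ : ℝ)) * n ^ 2)
        = 10 * κ * D * n ^ 5 + 1677721600 * n ^ 4 := by
      field_simp
    rw [e2]
    have h3 : (a : ℝ) * n ^ 5 ≤ 10 * κ * D * n ^ 5 :=
      mul_le_mul_of_nonneg_right ha (by positivity)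
    nlinarith
  have h4 := le_of_mul_le_mul_left h2 (by positivity : 0 < 10 * (κ : ℝ) * n ^ 2)
  rw [hS] at h4
  refine le_trans (le_of_eq ?_) h4
  refine sum_congr rfl fun a _ => sum_congr rfl fun b _ => sum_congr rfl fun c _ => ?_
  by_cases hh : tyS TY (c3 rel a b c) ∈ L
  · rw [if_pos hh, if_pos hh]
  · rw [if_neg hh, if_neg hh]

theorem m32784 : ∀ c < 64, bit 32784 (tp c) = 1 → tyS KM.TY c ∈ [4, 15] := by decide +kernel

theorem cnt32784 {V : Type} [Fintype V] {rel : V → V → ℕ} (hr : Rel4 rel) :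
    cnt (fun c => bit 32784 (tp c) = 1) rel ≤ 4 / 15 * (Fintype.card V : ℝ) ^ 3 := by
  refine le_trans (cnt_mono hr (R' := fun c => tyS KM.TY c ∈ [4, 15]) m32784)
    (cert_cntD KM.cert [4, 15] (κ := 4500) (a := 12000) (fun _ => rfl) rfl (by norm_num)
      (4 / 15) (by norm_num) V rel hr)

/-- sources, other symmetric relations and cyclic triangles -/
theorem bound32784 {n : ℕ} {H : Finset (Finset (Fin n))} (hH : ∀ e ∈ H, e.card = 3)
    {rel : Fin n → Fin n → ℕ} (hr : Rel4 rel)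
    (h : ∀ x y z : Fin n, x ≠ y → x ≠ z → y ≠ z → ({x, y, z} : Finset (Fin n)) ∈ H →
      bit 32784 (tp (c3 rel x y z)) = 1) : 45 * H.card ≤ 2 * n ^ 3 := by
  have h2 := (card_le_cnt hH h).trans (cnt32784 hr)
  rw [Fintype.card_fin] at h2
  have h3 : (45 : ℝ) * H.card ≤ 2 * (n : ℝ) ^ 3 := by linarith
  exact_mod_cast h3

end Pool.Agent.U378.TM

namespace Pool.Agent.U378.TF

/-- the edges are cyclic triangles of a tournament -/
theorem kmax {n : ℕ} {H : Finset (Finset (Fin n))} (hH : ∀ e ∈ H, e.card = 3)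
    {rel : Fin n → Fin n → ℕ} (hr : Rel4 rel) (g : ℕ → ℕ)
    (hg : ∀ x < 4, g x < 2 ∧ g (rv x) ≠ g x) {M : ℕ}
    (hM : ∀ c < 64, bit M (tp c) = 1 → g (dg0 c) = g (dg2 c) ∧ g (dg0 c) ≠ g (dg1 c))
    (h : ∀ x y z : Fin n, x ≠ y → x ≠ z → y ≠ z → ({x, y, z} : Finset (Fin n)) ∈ H →
      bit M (tp (c3 rel x y z)) = 1) : 24 * H.card + n ≤ n ^ 3 := by
  refine Pool.Agent.U378.K4.cyc_bound (D := fun x y => g (rel x y) = 0) (fun x y hxy => ?_) hH
    fun x y z hxy hxz hyz hm => ?_
  · have h1 := hg _ (hr.lt x y)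
    have h2 := hg _ (hr.lt y x)
    rw [hr.rev x y hxy] at h2 ⊢
    omega
  · obtain ⟨h1, h2⟩ := hM _ (c3_lt hr x y z) (h x y z hxy hxz hyz hm)
    unfold c3 at h1 h2
    rw [dg0_q4 (hr.lt _ _), dg2_q4 (hr.lt _ _) (hr.lt _ _)] at h1
    rw [dg0_q4 (hr.lt _ _), dg1_q4 (hr.lt _ _) (hr.lt _ _)] at h2
    have h3 := hg _ (hr.lt x z)
    have h4 := hg _ (hr.lt z x)
    have h5 := hg _ (hr.lt x y)
    rw [hr.rev x z hxz] at h4 ⊢
    omega

namespace Core

/-- no structure on four points has three edges -/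
def Free3 (F : ℕ → Prop) : Prop := ∀ rel : Fin 4 → Fin 4 → ℕ, Rel4 rel →
  ∀ u v w t : Fin 4, u ≠ v → u ≠ w → u ≠ t → v ≠ w → v ≠ t → w ≠ t →
    ¬ (Edge F rel {u, v, w} ∧ Edge F rel {u, v, t} ∧ Edge F rel {u, w, t})

theorem r4_rel {x y z u v w : ℕ} (hx : x < 4) (hy : y < 4)
    (hz : z < 4) (hu : u < 4) (hv : v < 4) (hw : w < 4) : Rel4 (r4 x y z u v w) := by
  refine ⟨fun i j => ?_, fun i j hij => ?_⟩
  · fin_cases i <;> fin_cases j <;> first
      | exact Nat.zero_lt_succ 3
      | assumption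
      | exact rv_lt _
  · fin_cases i <;> fin_cases j <;> first
      | exact absurd rfl hij
      | rfl
      | exact (rv_rv _ hx).symm
      | exact (rv_rv _ hy).symm
      | exact (rv_rv _ hz).symm
      | exact (rv_rv _ hu).symm
      | exact (rv_rv _ hv).symm
      | exact (rv_rv _ hw).symm

theorem w012 {F : ℕ → Prop} (hU : Free3 F) {x y z u v w t0 t1 t2 : ℕ} (hx : x < 4) (hy : y < 4)
    (hz : z < 4) (hu : u < 4) (hv : v < 4) (hw : w < 4) (h0 : tp (q4 x y z) = t0)
    (h1 : tp (q4 x u v) = t1) (h2 : tp (q4 y u w) = t2)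
    (e0 : EE F t0) (e1 : EE F t1) (e2 : EE F t2) : False := by
  have hT := r4_rel hx hy hz hu hv hw
  have c012 : c3 (r4 x y z u v w) (0 : Fin 4) 1 2 = q4 x y z := rfl
  have c013 : c3 (r4 x y z u v w) (0 : Fin 4) 1 3 = q4 x u v := rfl
  have c023 : c3 (r4 x y z u v w) (0 : Fin 4) 2 3 = q4 y u w := rfl
  exact hU _ hT 0 1 2 3 (by decide) (by decide) (by decide) (by decide) (by decide) (by decide)
    ⟨type_edge hT (by decide) (by decide) (by decide) (by rw [c012, h0]; exact e0),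
      type_edge hT (by decide) (by decide) (by decide) (by rw [c013, h1]; exact e1),
      type_edge hT (by decide) (by decide) (by decide) (by rw [c023, h2]; exact e2)⟩

theorem w123 {F : ℕ → Prop} (hU : Free3 F) {x y z u v w t1 t2 t3 : ℕ} (hx : x < 4) (hy : y < 4)
    (hz : z < 4) (hu : u < 4) (hv : v < 4) (hw : w < 4)
    (h1 : tp (q4 x u v) = t1) (h2 : tp (q4 y u w) = t2) (h3 : tp (q4 z v w) = t3)
    (e1 : EE F t1) (e2 : EE F t2) (e3 : EE F t3) : False := by
  have hT := r4_rel hx hy hz hu hv hw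
  have c013 : c3 (r4 x y z u v w) (0 : Fin 4) 1 3 = q4 x u v := rfl
  have c023 : c3 (r4 x y z u v w) (0 : Fin 4) 2 3 = q4 y u w := rfl
  have c123 : c3 (r4 x y z u v w) (1 : Fin 4) 2 3 = q4 z v w := rfl
  have s1 : ({3, 0, 1} : Finset (Fin 4)) = {0, 1, 3} := by decide
  have s2 : ({3, 0, 2} : Finset (Fin 4)) = {0, 2, 3} := by decide
  have s3 : ({3, 1, 2} : Finset (Fin 4)) = {1, 2, 3} := by decide
  refine hU _ hT 3 0 1 2 (by decide) (by decide) (by decide) (by decide) (by decide) (by decide) ?_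
  rw [s1, s2, s3]
  exact ⟨type_edge hT (by decide) (by decide) (by decide) (by rw [c013, h1]; exact e1),
      type_edge hT (by decide) (by decide) (by decide) (by rw [c023, h2]; exact e2),
      type_edge hT (by decide) (by decide) (by decide) (by rw [c123, h3]; exact e3)⟩

theorem w013 {F : ℕ → Prop} (hU : Free3 F) {x y z u v w t0 t1 t3 : ℕ} (hx : x < 4) (hy : y < 4)
    (hz : z < 4) (hu : u < 4) (hv : v < 4) (hw : w < 4) (h0 : tp (q4 x y z) = t0)
    (h1 : tp (q4 x u v) = t1) (h3 : tp (q4 z v w) = t3)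
    (e0 : EE F t0) (e1 : EE F t1) (e3 : EE F t3) : False := by
  have hT := r4_rel hx hy hz hu hv hw
  have c012 : c3 (r4 x y z u v w) (0 : Fin 4) 1 2 = q4 x y z := rfl
  have c013 : c3 (r4 x y z u v w) (0 : Fin 4) 1 3 = q4 x u v := rfl
  have c123 : c3 (r4 x y z u v w) (1 : Fin 4) 2 3 = q4 z v w := rfl
  have s1 : ({1, 0, 2} : Finset (Fin 4)) = {0, 1, 2} := by decide
  have s2 : ({1, 0, 3} : Finset (Fin 4)) = {0, 1, 3} := by decide
  refine hU _ hT 1 0 2 3 (by decide) (by decide) (by decide) (by decide) (by decide) (by decide) ?_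
  rw [s1, s2]
  exact ⟨type_edge hT (by decide) (by decide) (by decide) (by rw [c012, h0]; exact e0),
      type_edge hT (by decide) (by decide) (by decide) (by rw [c013, h1]; exact e1),
      type_edge hT (by decide) (by decide) (by decide) (by rw [c123, h3]; exact e3)⟩

/-- **the bound for every rule on two exchanged pairs of relations** -/
theorem bound3 {F : ℕ → Prop} (hU : Free3 F) {n : ℕ} {rel : Fin n → Fin n → ℕ} (hr : Rel4 rel)
    {H : Finset (Finset (Fin n))} (hH : ∀ e ∈ H, e.card = 3)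
    (hE : ∀ e ∈ H, Edge F rel e) : 24 * H.card + n ≤ n ^ 3 := by
  have n0 : ¬ EE F 0 := fun h => w012 hU (x := 0) (y := 0) (z := 0) (u := 0) (v := 0) (w := 0)
    (by norm_num) (by norm_num) (by norm_num) (by norm_num) (by norm_num) (by norm_num)
    (by decide +kernel) (by decide +kernel) (by decide +kernel) h h h
  have n3 : ¬ EE F 3 := fun h => w123 hU (x := 0) (y := 0) (z := 0) (u := 1) (v := 1) (w := 1)
    (by norm_num) (by norm_num) (by norm_num) (by norm_num) (by norm_num) (by norm_num)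
    (by decide +kernel) (by decide +kernel) (by decide +kernel) h h h
  have n9 : ¬ EE F 9 := fun h => w123 hU (x := 0) (y := 0) (z := 0) (u := 3) (v := 3) (w := 3)
    (by norm_num) (by norm_num) (by norm_num) (by norm_num) (by norm_num) (by norm_num)
    (by decide +kernel) (by decide +kernel) (by decide +kernel) h h h
  have n1 : ¬ EE F 1 := fun h => w012 hU (x := 0) (y := 0) (z := 1) (u := 0) (v := 1) (w := 1)
    (by norm_num) (by norm_num) (by norm_num) (by norm_num) (by norm_num) (by norm_num)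
    (by decide +kernel) (by decide +kernel) (by decide +kernel) h h h
  have n4 : ¬ EE F 4 := fun h => w013 hU (x := 0) (y := 1) (z := 2) (u := 1) (v := 2) (w := 1)
    (by norm_num) (by norm_num) (by norm_num) (by norm_num) (by norm_num) (by norm_num)
    (by decide +kernel) (by decide +kernel) (by decide +kernel) h h h
  have n10 : ¬ EE F 10 := fun h => w012 hU (x := 1) (y := 1) (z := 1) (u := 1) (v := 1) (w := 1)
    (by norm_num) (by norm_num) (by norm_num) (by norm_num) (by norm_num) (by norm_num)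
    (by decide +kernel) (by decide +kernel) (by decide +kernel) h h h
  have n27 : EE F 7 → ¬ EE F 2 := fun h h' => w012 hU (x := 0) (y := 1) (z := 0) (u := 2) (v := 1)
    (w := 0) (t0 := 2) (t1 := 7) (t2 := 7)
    (by norm_num) (by norm_num) (by norm_num) (by norm_num) (by norm_num) (by norm_num)
    (by decide +kernel) (by decide +kernel) (by decide +kernel) h' h h
  have n28 : EE F 8 → ¬ EE F 2 := fun h h' => w012 hU (x := 0) (y := 1) (z := 0) (u := 2) (v := 3)
    (w := 1) (t0 := 2) (t1 := 2) (t2 := 8)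
    (by norm_num) (by norm_num) (by norm_num) (by norm_num) (by norm_num) (by norm_num)
    (by decide +kernel) (by decide +kernel) (by decide +kernel) h' h' h
  have n57 : EE F 7 → ¬ EE F 5 := fun h h' => w012 hU (x := 0) (y := 1) (z := 3) (u := 2) (v := 1)
    (w := 0) (t0 := 5) (t1 := 7) (t2 := 7)
    (by norm_num) (by norm_num) (by norm_num) (by norm_num) (by norm_num) (by norm_num)
    (by decide +kernel) (by decide +kernel) (by decide +kernel) h' h h
  have n58 : EE F 8 → ¬ EE F 5 := fun h h' => w012 hU (x := 0) (y := 1) (z := 3) (u := 3) (v := 1)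
    (w := 0) (t0 := 5) (t1 := 8) (t2 := 8)
    (by norm_num) (by norm_num) (by norm_num) (by norm_num) (by norm_num) (by norm_num)
    (by decide +kernel) (by decide +kernel) (by decide +kernel) h' h h
  by_cases h78 : EE F 7 ∨ EE F 8
  · have n2 : ¬ EE F 2 := h78.elim n27 n28
    have n5 : ¬ EE F 5 := h78.elim n57 n58
    refine kmax hH hr (fun x => x / 2) g1_rv (M := 2496) cyc1 fun x y z hxy hxz hyz hm => ?_
    have ht := tp_lt _ (c3_lt hr x y z)
    have he := edge_type hr hxy hxz hyz (hE _ hm)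
    revert ht he
    generalize tp (c3 rel x y z) = t
    intro ht he
    interval_cases t <;> first | rfl | exact absurd he (by assumption)
  · have n7 : ¬ EE F 7 := fun h => h78 (Or.inl h)
    have n8 : ¬ EE F 8 := fun h => h78 (Or.inr h)
    refine kmax hH hr (fun x => (x + 1) / 2 % 2) g2_rv (M := 2148) cyc2 fun x y z hxy hxz hyz hm => ?_
    have ht := tp_lt _ (c3_lt hr x y z)
    have he := edge_type hr hxy hxz hyz (hE _ hm)
    revert ht he
    generalize tp (c3 rel x y z) = t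
    intro ht he
    interval_cases t <;> first | rfl | exact absurd he (by assumption)

end Core

end Pool.Agent.U378.TF
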